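import Pool.Agent.Q292.CDep.Pts

/-!
# The dependence between two far critical clusters: exact order, with a logarithm

Critical bond percolation on `ℤ²` (the FK model with `q = 1` at its self-dual point). The
dependence between the clusters of two vertices `x`, `y`, or between what is explored by following
the open edges from two boxes, is measured by the total variation distance between the joint law
and the product of the two laws.

* For two vertices the distance is *equal* to the probability that the clusters of `x` and of `y`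
  in two *independent* configurations meet and are different, and it is of exact order
  `R ^ (-5/24) * log (R + 1)`, where `R` is the distance of `x` and `y`: by a logarithm larger than
  the probability, of order `R ^ (-5/24)`, that `x` and `y` are connected.
* For two boxes of radii `r` and `s` at distance `R` it is of exact order
  `u ^ (5/48) * log (1 / u)`, where `u = (r + 1) * (s + 1) / R ^ 2`. The upper bound holds for the
  clusters with their open edges, the lower bound already for the sets of vertices.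

Definitions of the model (`sqLattice`, `bondLaw`, `openGraph`): `Pool.Agent.H974R2.Model`; `hlf` is
the parameter `1 / 2` (`Pool.Agent.H974R2.Infinite`).
-/

set_option autoImplicit false

namespace Pool.Agent.Results.MP_b3e76a_pr.ClusterDependence

open H974 MeasureTheory

/-- The law of critical bond percolation on `ℤ²`. -/
noncomputable def law : Measure (sqLattice.edgeSet → Bool) := bondLaw hlf

/-- The distance of the supremum norm. -/
def dist (u v : ℤ × ℤ) : ℕ := max (u.1 - v.1).natAbs (u.2 - v.2).natAbs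

/-- The box of radius `r` around `x`. -/
def box (x : ℤ × ℤ) (r : ℕ) : Set (ℤ × ℤ) := {u | dist u x ≤ r}

/-- The union of the open clusters of the vertices of `A`. -/
def clusters (A : Set (ℤ × ℤ)) (ω : sqLattice.edgeSet → Bool) : Set (ℤ × ℤ) :=
  {v | ∃ u ∈ A, (openGraph ω).Reachable u v}

/-- These clusters as a graph: their vertices and the open edges with an end in them. -/
def graph (A : Set (ℤ × ℤ)) (ω : sqLattice.edgeSet → Bool) :
    Set (ℤ × ℤ) × Set sqLattice.edgeSet :=
  (clusters A ω, {e | ω e = true ∧ ∃ v ∈ clusters A ω, v ∈ (e : Sym2 (ℤ × ℤ))})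

/-- The probability, for two independent configurations `p.1` and `p.2`, that the cluster of `x`
in the first one and the cluster of `y` in the second one meet and are different. -/
noncomputable def meet (x y : ℤ × ℤ) : ℝ :=
  (law.prod law).real {p | (clusters {x} p.1 ∩ clusters {y} p.2).Nonempty ∧
    clusters {x} p.1 ≠ clusters {y} p.2}

theorem result :
    (∀ x y : ℤ × ℤ, IsGreatest {t : ℝ | ∃ B : Set (Set (ℤ × ℤ) × Set (ℤ × ℤ)),
      t = |law.real {ω | (clusters {x} ω, clusters {y} ω) ∈ B} -
        (law.prod law).real {p | (clusters {x} p.1, clusters {y} p.2) ∈ B}|} (meet x y)) ∧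
    (∃ c C : ℝ, 0 < c ∧ 0 < C ∧ ∀ x y : ℤ × ℤ, x ≠ y →
      c * (dist x y : ℝ) ^ (-(5 / 24 : ℝ)) * Real.log ((dist x y : ℝ) + 1) ≤ meet x y ∧
      meet x y ≤ C * (dist x y : ℝ) ^ (-(5 / 24 : ℝ)) * Real.log ((dist x y : ℝ) + 1)) ∧
    (∃ c C : ℝ, 0 < c ∧ 0 < C ∧ ∀ (x y : ℤ × ℤ) (r s : ℕ),
      20 * (r + 1) ≤ dist x y → 20 * (s + 1) ≤ dist x y →
      ∀ u : ℝ, u = ((r : ℝ) + 1) * ((s : ℝ) + 1) / (dist x y : ℝ) ^ 2 →
      (∀ B : Set ((Set (ℤ × ℤ) × Set sqLattice.edgeSet) ×
          (Set (ℤ × ℤ) × Set sqLattice.edgeSet)),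
        |law.real {ω | (graph (box x r) ω, graph (box y s) ω) ∈ B} -
          (law.prod law).real {p | (graph (box x r) p.1, graph (box y s) p.2) ∈ B}| ≤
            C * u ^ (5 / 48 : ℝ) * Real.log (1 / u)) ∧
      ∃ B : Set (Set (ℤ × ℤ) × Set (ℤ × ℤ)),
        MeasurableSet {ω | (clusters (box x r) ω, clusters (box y s) ω) ∈ B} ∧
        MeasurableSet {p : (sqLattice.edgeSet → Bool) × (sqLattice.edgeSet → Bool) |
          (clusters (box x r) p.1, clusters (box y s) p.2) ∈ B} ∧
        c * u ^ (5 / 48 : ℝ) * Real.log (1 / u) ≤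
          |law.real {ω | (clusters (box x r) ω, clusters (box y s) ω) ∈ B} -
            (law.prod law).real {p | (clusters (box x r) p.1, clusters (box y s) p.2) ∈ B}|) := by
  have hmeet : ∀ x y : ℤ × ℤ, meet x y =
      (Q292.CDep.μ.prod Q292.CDep.μ).real (Q292.CDep.ED x y) := by
    intro x y
    unfold meet Q292.CDep.ED
    congr 1
    ext p
    show ((Q292.CDep.clu {x} p.1 ∩ Q292.CDep.clu {y} p.2).Nonempty ∧
      Q292.CDep.clu {x} p.1 ≠ Q292.CDep.clu {y} p.2) ↔
      (¬ Disjoint (Q292.CDep.clu {x} p.1) (Q292.CDep.clu {y} p.2) ∧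
      Q292.CDep.clu {x} p.1 ≠ Q292.CDep.clu {y} p.2)
    rw [Set.not_disjoint_iff_nonempty_inter]
  refine ⟨?_, ?_, ?_⟩
  · intro x y
    constructor
    · refine ⟨{q | ¬ Disjoint q.1 q.2 ∧ q.1 ≠ q.2}, ?_⟩
      rw [hmeet]
      exact (Q292.CDep.exact_eq x y).symm
    · rintro t ⟨B, rfl⟩
      rw [hmeet]
      exact Q292.CDep.exact_le (Q292.CDep.single_finite x) (Q292.CDep.single_finite y) B
  · obtain ⟨c, C, hc, hC, h⟩ := Q292.CDep.two_vertices
    refine ⟨c, C, hc, hC, fun x y hxy => ?_⟩
    rw [hmeet]
    exact h x y hxy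
  · obtain ⟨c, C, hc, hC, h⟩ := Q292.CDep.main
    refine ⟨c, C, hc, hC, ?_⟩
    rintro x y r s hr hs u rfl
    have e : Real.log (1 / (((r : ℝ) + 1) * ((s : ℝ) + 1) / (dist x y : ℝ) ^ 2)) =
        Real.log ((dist x y : ℝ) ^ 2 / (((r : ℝ) + 1) * ((s : ℝ) + 1))) := by
      rw [one_div_div]
    rw [e]
    exact h x y r s (dist x y) rfl hr hs

end Pool.Agent.Results.MP_b3e76a_pr.ClusterDependence
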