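import Pool.Agent.Q292.TVY.CluTail

/-!
# The law of the open cluster near criticality: the perturbation exponent `10/91`

Bond percolation on `ℤ²` (the FK model with `q = 1`), `law p` being the law of independent edges,
the edge `e` open with probability `p e`. `graph ω` is the open cluster of the origin as a graph:
its set of vertices and the set of the open edges at them.

* If all the probabilities `p e` are within `δ` of the self-dual point `1 / 2`, the total variation
  distance between the laws of the cluster for `p` and for `1 / 2` is at most `C δ ^ (10/91)`.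
* This order is attained by every perturbation of order `δ` of all the edges, whatever its signs:
  if `δ / A ≤ |p e - 1 / 2| ≤ δ` for all `e`, the distance is at least `c(A) δ ^ (10/91)`. This
  applies to the homogeneous percolation with parameter `q` (`A = 1`, `δ = |q - 1 / 2|`) and also to
  the critical anisotropic percolation with parameters `1 / 2 + δ` and `1 / 2 - δ` for the
  horizontal and the vertical edges.

Definitions of the model (`sqLattice`, `bondLaw`, `cluster0`): `Pool.Agent.H974R2.Model`.
-/

set_option autoImplicit false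

namespace Pool.Agent.Results.MP_b3e76a_pr.ClusterVariation

open H974 MeasureTheory ProbabilityTheory

/-- Independent edges; `p e` is the probability that `e` is open. -/
noncomputable def law (p : sqLattice.edgeSet → unitInterval) : Measure (sqLattice.edgeSet → Bool) :=
  Measure.infinitePi (fun e => bernoulliMeasure true false (p e))

/-- The open cluster of the origin as a graph: its vertices and the open edges which have an end
in it. -/
def graph (ω : sqLattice.edgeSet → Bool) : Set (ℤ × ℤ) × Set sqLattice.edgeSet :=
  (cluster0 ω, {e | ω e = true ∧ ∃ v ∈ cluster0 ω, v ∈ (e : Sym2 (ℤ × ℤ))})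

theorem result :
    (∀ q : unitInterval, law (fun _ => q) = bondLaw q) ∧
    (∃ C : ℝ, 0 < C ∧ ∀ (δ : ℝ) (p : sqLattice.edgeSet → unitInterval),
      (∀ e, |(p e : ℝ) - 1/2| ≤ δ) → ∀ B : Set (Set (ℤ × ℤ) × Set sqLattice.edgeSet),
        |(law p).real {ω | graph ω ∈ B} - (bondLaw hlf).real {ω | graph ω ∈ B}| ≤
          C * δ ^ (10/91 : ℝ)) ∧
    (∀ A : ℝ, 1 ≤ A → ∃ c : ℝ, 0 < c ∧ ∀ (δ : ℝ)
      (p : sqLattice.edgeSet → unitInterval),
      (∀ e, δ / A ≤ |(p e : ℝ) - 1/2| ∧ |(p e : ℝ) - 1/2| ≤ δ) →
        ∃ B : Set (Set (ℤ × ℤ) × Set sqLattice.edgeSet), MeasurableSet {ω | graph ω ∈ B} ∧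
          c * δ ^ (10/91 : ℝ) ≤
            |(law p).real {ω | graph ω ∈ B} - (bondLaw hlf).real {ω | graph ω ∈ B}|) := by
  have e : (2 * (5/91) : ℝ) = 10/91 := by norm_num
  refine ⟨fun q => rfl, ?_, ?_⟩
  · obtain ⟨C, hC, h⟩ := Q292.TVY.clu_upper
    rw [e] at h
    exact ⟨C, hC, h⟩
  · intro A hA
    obtain ⟨c, hc, h⟩ := Q292.TVY.clu_lower hA
    rw [e] at h
    exact ⟨c, hc, h⟩

end Pool.Agent.Results.MP_b3e76a_pr.ClusterVariation
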