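import Pool.Agent.Q292.Lam.Thr

/-!
# Critical percolation with a perturbation which depends on the distance to the origin

Bond percolation on `ℤ²` with independent edges, the edge `e` being open with probability `p e`
(`law p`). `rad e` is the distance of `e` to the origin (sup norm), and the annulus of scale `k` is
the set of the edges with `2 ^ k < rad e ≤ 2 ^ (k + 1)`. `Cross i j` is the event that the box of
radius `2 ^ i` is connected by open edges to distance `2 ^ j`.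

(1) If `p e` is `1 / 2 + t k` in the annulus of scale `k` (`|t k| ≤ 1 / 4`, any signs), then
`P (Cross i j) = exp (- Θ (∑ cost (2 ^ k) (t k)))`, the sum over the annuli between the two radii,
`cost w t = exp (- Θ (w t ^ (4/3)))` for `t ≥ 0` and `1 + w |t| ^ (4/3)` for `t < 0`. The two bounds
are one-sided: each of them needs `p e` only from one side.

(2) The criterion for percolation: if `p e ≤ 1 / 2 + t k` far from the origin and
`∑ cost (2 ^ k) (t k) = ∞`, all open clusters are almost surely finite; if `p e ≥ 1 / 2 + t k` and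
the sum is finite, there is almost surely exactly one infinite open cluster. (The constants inside
`cost` are different in the two cases.)

(3) The threshold: the order of the smallest perturbation which creates an infinite cluster is
`(log log r / r) ^ (3/4)` at distance `r`.

(4) The perturbation `p e = 1 / 2 + l / (rad e) ^ (3/4)`, `l` of any sign: the probability of a
connection between the radii `2 ^ i` and `2 ^ j` decays like a power of the ratio of the radii with
exponent of order `exp (- Θ (l ^ (4/3)))` for `l ≥ 0` and `1 + |l| ^ (4/3)` for `l < 0`.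

The model (`sqLattice`, `openGraph`): `Pool.Agent.H974R2.Model`.
-/

set_option autoImplicit false

namespace Pool.Agent.Results.MP_b3e76a_pr.DecayingPerturbations

open H974 MeasureTheory ProbabilityTheory

/-- Independent edges; `p e` is the probability that `e` is open. -/
noncomputable def law (p : sqLattice.edgeSet → unitInterval) : Measure (sqLattice.edgeSet → Bool) :=
  Measure.infinitePi (fun e => bernoulliMeasure true false (p e))

/-- The sup norm of a vertex. -/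
def nrm (v : ℤ × ℤ) : ℕ := max v.1.natAbs v.2.natAbs

/-- The distance of an edge to the origin: the larger one of the norms of its end points. -/
def rad (e : sqLattice.edgeSet) : ℕ := ((e : Sym2 (ℤ × ℤ)).map nrm).sup

/-- The box of radius `2 ^ i` is connected to the distance `2 ^ j`. -/
def Cross (i j : ℕ) : Set (sqLattice.edgeSet → Bool) :=
  {ω | ∃ u v : ℤ × ℤ, nrm u ≤ 2 ^ i ∧ 2 ^ j ≤ nrm v ∧ (openGraph ω).Reachable u v}

/-- The open cluster of a vertex. -/
def clus (ω : sqLattice.edgeSet → Bool) (v : ℤ × ℤ) : Set (ℤ × ℤ) :=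
  {w | (openGraph ω).Reachable v w}

/-- The cost of crossing an annulus of size `w` at the parameter `1 / 2 + t`. -/
noncomputable def cost (a : ℝ) (w : ℝ) (t : ℝ) : ℝ :=
  if 0 ≤ t then Real.exp (-(a * (w * t ^ (4/3 : ℝ)))) else 1 + w * (-t) ^ (4/3 : ℝ)

/-- The perturbation `l (log log r / r) ^ (3/4)`. -/
noncomputable def pert (l : ℝ) (r : ℕ) : ℝ :=
  l * Real.log (Real.log r) ^ (3/4 : ℝ) / (r : ℝ) ^ (3/4 : ℝ)

theorem result :
    -- (1)
    (∃ c C : ℝ, 0 < c ∧ 0 < C ∧ ∀ (i j : ℕ), i ≤ j →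
      ∀ (p : sqLattice.edgeSet → unitInterval) (t : ℕ → ℝ),
      (∀ k, i ≤ k → k < j → |t k| ≤ 1/4) →
        ((∀ k, i ≤ k → k < j → ∀ e, 2 ^ k < rad e → rad e ≤ 2 ^ (k + 1) →
            1/2 + t k ≤ (p e : ℝ)) →
          Real.exp (-(C * ∑ k ∈ Finset.Ico i j, cost c (2 ^ k) (t k))) ≤
            (law p).real (Cross i j)) ∧
        ((∀ k, i ≤ k → k < j → ∀ e, 2 ^ k < rad e → rad e ≤ 2 ^ (k + 1) →
            (p e : ℝ) ≤ 1/2 + t k) →
          (law p).real (Cross i j) ≤
            Real.exp (-(c * ∑ k ∈ Finset.Ico i j, cost C (2 ^ k) (t k))))) ∧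
    -- (2)
    (∃ c C : ℝ, 0 < c ∧ 0 < C ∧ ∀ (p : sqLattice.edgeSet → unitInterval) (t : ℕ → ℝ) (K : ℕ),
      (∀ k, K ≤ k → |t k| ≤ 1/4) →
        ((∀ k, K ≤ k → ∀ e, 2 ^ k < rad e → rad e ≤ 2 ^ (k + 1) → (p e : ℝ) ≤ 1/2 + t k) →
          ¬ Summable (fun k => cost C (2 ^ k) (t k)) →
            ∀ᵐ ω ∂(law p), ∀ v, (clus ω v).Finite) ∧
        ((∀ k, K ≤ k → ∀ e, 2 ^ k < rad e → rad e ≤ 2 ^ (k + 1) → 1/2 + t k ≤ (p e : ℝ)) →
          Summable (fun k => cost c (2 ^ k) (t k)) →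
            ∀ᵐ ω ∂(law p), (∃ v, (clus ω v).Infinite) ∧
              ∀ u v, (clus ω u).Infinite → (clus ω v).Infinite →
                (openGraph ω).Reachable u v)) ∧
    -- (3)
    (∃ l₁ l₂ : ℝ, 0 < l₁ ∧ 0 < l₂ ∧ ∀ (p : sqLattice.edgeSet → unitInterval) (R : ℕ),
      ((∀ e, R ≤ rad e → (p e : ℝ) ≤ 1/2 + pert l₁ (rad e)) →
        ∀ᵐ ω ∂(law p), ∀ v, (clus ω v).Finite) ∧
      ((∀ e, R ≤ rad e → 1/2 + pert l₂ (rad e) ≤ (p e : ℝ)) →
        ∀ᵐ ω ∂(law p), (∃ v, (clus ω v).Infinite) ∧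
          ∀ u v, (clus ω u).Infinite → (clus ω v).Infinite → (openGraph ω).Reachable u v)) ∧
    -- (4)
    (∃ c C : ℝ, 0 < c ∧ 0 < C ∧ ∀ (l : ℝ) (i j : ℕ), i ≤ j →
      |l| ≤ ((2:ℝ) ^ i) ^ (3/4 : ℝ) / 4 → ∀ p : sqLattice.edgeSet → unitInterval,
      (∀ e, 2 ^ i < rad e → rad e ≤ 2 ^ j → (p e : ℝ) = 1/2 + l / (rad e : ℝ) ^ (3/4 : ℝ)) →
        Real.exp (-(C * cost c 1 l * ((j : ℝ) - i))) ≤ (law p).real (Cross i j) ∧
        (law p).real (Cross i j) ≤ Real.exp (-(c * cost C 1 l * ((j : ℝ) - i)))) := by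
  refine ⟨?_, ?_, ?_, Q292.Lam.expo⟩
  · obtain ⟨c1, C1, hc1, hC1, h1⟩ := Q292.Lam.inf_low
    obtain ⟨c2, C2, hc2, hC2, h2⟩ := Q292.Lam.inf_up
    refine ⟨min c1 c2, max C1 C2, lt_min hc1 hc2, lt_max_of_lt_left hC1, ?_⟩
    intro i j hij p t ht
    have hpos : ∀ a : ℝ, 0 ≤ ∑ k ∈ Finset.Ico i j, Q292.Lam.gg a (2 ^ k) (t k) := fun a =>
      Finset.sum_nonneg fun k _ => (Q292.Lam.gg_pos (by positivity)).le
    refine ⟨fun hp => ?_, fun hp => ?_⟩
    · refine le_trans ?_ (h1 i j hij p t ht hp)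
      apply Real.exp_le_exp.2
      have g1 : ∑ k ∈ Finset.Ico i j, Q292.Lam.gg c1 (2 ^ k) (t k) ≤
          ∑ k ∈ Finset.Ico i j, cost (min c1 c2) (2 ^ k) (t k) :=
        Finset.sum_le_sum fun k _ => Q292.Lam.gg_anti_c (min_le_left _ _) (by positivity)
      have g2 := mul_le_mul (le_max_left C1 C2) g1 (hpos c1)
        (le_trans hC1.le (le_max_left C1 C2))
      linarith
    · refine (h2 i j hij p t ht hp).trans ?_
      apply Real.exp_le_exp.2
      have g1 : ∑ k ∈ Finset.Ico i j, cost (max C1 C2) (2 ^ k) (t k) ≤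
          ∑ k ∈ Finset.Ico i j, Q292.Lam.gg C2 (2 ^ k) (t k) :=
        Finset.sum_le_sum fun k _ => Q292.Lam.gg_anti_c (le_max_right _ _) (by positivity)
      have g2 := mul_le_mul (min_le_right c1 c2) g1 (hpos (max C1 C2)) hc2.le
      linarith
  · obtain ⟨c, hc, h1⟩ := Q292.Lam.perc_uniq
    obtain ⟨C, hC, h2⟩ := Q292.Lam.no_perc
    exact ⟨c, C, hc, hC, fun p t K ht => ⟨fun hp hs => h2 p t K ht hp hs,
      fun hp hs => h1 p t K ht hp hs⟩⟩
  · obtain ⟨l₁, hl₁, h1⟩ := Q292.Lam.thr_low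
    obtain ⟨l₂, hl₂, h2⟩ := Q292.Lam.thr_up
    exact ⟨l₁, l₂, hl₁, hl₂, fun p R => ⟨h1 p R, h2 p R⟩⟩

end Pool.Agent.Results.MP_b3e76a_pr.DecayingPerturbations
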