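import Pool.Agent.Q291.FK.Crv
import Pool.Agent.H984R3.Per.UpPi
import Pool.Agent.H984R3.Per.LowEV
import Pool.Agent.H985R3.TA.Main
import Pool.Agent.H985R3.TA.STA

/-!
# The interface of the self-dual random-cluster model with cluster weight `q` near `1`

Self-dual random-cluster model with cluster weight `q > 0` on `δ ℤ²` in a rectangle
`(-A, B) × (0, H)`, wired on the boundary arc from `a = t + i H` counterclockwise to `b = 0` and
free on the complementary arc (Dobrushin boundary condition); interface from `a` to `b` on the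
medial lattice. With `θ = (√q - 1) / (√q + 1)`:

* the total variation distance between the laws of the discrete interface at `q` and at `q = 1`
  (critical bond percolation) is of order `min (1, |θ| δ ^ (-7/8))`, uniformly in `q > 0`;
* beyond this window the two laws are asymptotically mutually singular;
* for `q = q (δ) → 1` inside the window the interface, as a curve with its natural time, has the
  same limits in law as for percolation;
* the upper bound holds for the exploration path of any law of the edges for which all single edge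
  ratios are between `1 / r` and `r`.

Definitions: `Pool.Agent.H984R4.NP.Model` (`Rect`, `Rect.dm`, `pos`, `Rect.curve`, `Rect.time`),
`Pool.Agent.H984R4.NP.Defs` (`Dm`, `Dm.edges`, `Dm.wir`, `Dm.cfg`, `Dm.walk`, `Dm.len`),
`Pool.Agent.H984R3.Per.Defs` (states, `nxt`, `orb`), `Pool.Agent.Q291.EP.Wk` (`rnd`, `path`),
`Pool.Agent.Q291.FK.Clus` (`cl`, `ncl`, `vts`, `fkw`, `fkz`, `fkm`), `Pool.Agent.Q291.FK.Seq`
(`em`, `un`, `Law`), `Pool.Agent.Q291.FK.Sg` (`pr`), `Pool.Agent.Q291.FK.Mart` (`Near`),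
`Pool.Agent.Q291.FK.Fin` (`fkp`, `fke`), `Pool.Agent.Q291.FK.Low` (`th`).
-/

namespace Pool.Agent.Results.MP_b3e76a_pr.InterfaceNearOne

open H974 H342P H984P H984N Q291.EP Q291.FK

/-- The arm bounds in the form used below. -/
theorem inputs : (∃ c : ℝ, 0 < c ∧ H984P.LowA c (1/4)) ∧
    (∃ C : ℝ, 0 < C ∧ H342P.TwoUp C (1/4)) ∧ (∃ C : ℝ, 0 < C ∧ AnnUp C) := by
  refine ⟨?_, ?_, ?_⟩
  · obtain ⟨B, m0, κ, hκ, h⟩ := H985T.EV_lower
    obtain ⟨c, hc, h2⟩ := H984P.lowA_of_EV (B := B) (m0 := m0) (s := 1/4) hκ (by norm_num)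
      (fun m hm => by
        obtain ⟨ρ, c, s, c', f0, h1, h2, h3⟩ := h m hm
        exact ⟨ρ, c, s, c', f0, h2, h1, h3⟩)
    exact ⟨c, hc, h2⟩
  · obtain ⟨C, hC, h⟩ := H985T.pi2_upper
    exact ⟨C, hC, H984P.twoUp_of_pi2 hC (by norm_num) h⟩
  · obtain ⟨C, hC, h⟩ := H985T.st_A
    exact ⟨C, hC, fun r R hr hR c1 c2 S => h r R hr hR c1 c2 S⟩

theorem many_steps (R : Rect) : ∀ ε : ℝ, 0 < ε → ∃ Λ δ0 : ℝ, 0 < Λ ∧ 0 < δ0 ∧
    ∀ δ : ℝ, 0 < δ → δ ≤ δ0 → 1 - ε ≤ R.prob δ (fun F => 1 / Λ ≤ R.time δ F) := by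
  obtain ⟨⟨c, hc, hL⟩, ⟨C, hC, hU⟩, C2, hC2, hA⟩ := inputs
  intro ε hε
  obtain ⟨Λ, δ0, h1, h2, h3⟩ := (final_of hc hC hL hU hC2 hA R).1 (1/2) ε (by norm_num)
    (by norm_num) hε
  refine ⟨Λ, δ0, h1, h2, fun δ hδ hδ' => (h3 δ hδ hδ').trans ?_⟩
  exact H974.Pr_mono (okp (by norm_num) (by norm_num)) (fun F _ hF => hF.1.1)

theorem ok_small (R : Rect) : ∃ δ0 : ℝ, 0 < δ0 ∧ ∀ δ : ℝ, 0 < δ → δ ≤ δ0 → (R.dm δ).Ok := by
  obtain ⟨κ, S, δ1, hκ, hS, hδ1, hδ1', hsh⟩ := R.shape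
  exact ⟨δ1, hδ1, fun δ h1 h2 => (hsh δ h1 h2).ok⟩

theorem result (R : Rect) :
    (∃ c C δ0 : ℝ, 0 < c ∧ 0 < C ∧ 0 < δ0 ∧ ∀ δ : ℝ, 0 < δ → δ ≤ δ0 →
      -- the order of the total variation distance, uniformly in the cluster weight
      (∀ q : ℝ, 0 < q →
        (∀ f : (ℕ → St) → ℝ, (∀ x, 0 ≤ f x) → (∀ x, f x ≤ 1) →
          |fke q (R.dm δ) (fun F => f (path (R.dm δ) F)) -
            fke 1 (R.dm δ) (fun F => f (path (R.dm δ) F))| ≤ C * (|th q| * δ ^ (-(7/8) : ℝ))) ∧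
        ∃ B : Set (ℕ → St), c * min 1 (|th q| * δ ^ (-(7/8) : ℝ)) ≤
          fkp q (R.dm δ) (fun F => path (R.dm δ) F ∈ B) -
            fkp 1 (R.dm δ) (fun F => path (R.dm δ) F ∈ B)) ∧
      -- all functions of the curve and its natural time, against critical percolation
      (∀ q : ℝ, 0 < q → ∀ f : X → ℝ, (∀ x, 0 ≤ f x) → (∀ x, f x ≤ 1) →
        |fke q (R.dm δ) (fun F => f (R.curve δ F, R.time δ F)) -
          E (R.dm δ).edges (fun F => f (R.curve δ F, R.time δ F))| ≤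
            C * (|th q| * δ ^ (-(7/8) : ℝ))) ∧
      -- any law for which all single edge ratios are between `1 / r` and `r`
      (∀ (μ : Finset Edg → ℝ) (r : ℝ), Law (rnd (R.dm δ)) μ → Near (rnd (R.dm δ)) μ r → 1 ≤ r →
        ∀ f : (ℕ → St) → ℝ, (∀ x, 0 ≤ f x) → (∀ x, f x ≤ 1) →
        |Q291.FK.em μ (rnd (R.dm δ)) (fun F => f (path (R.dm δ) F)) -
          Q291.FK.em (un (rnd (R.dm δ))) (rnd (R.dm δ)) (fun F => f (path (R.dm δ) F))| ≤
          Real.sqrt (1 - Real.exp (-(C * ((r - 1) ^ 2 / r * δ ^ (-(7/4) : ℝ))))))) ∧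
    -- beyond the window
    (∀ ε : ℝ, 0 < ε → ∃ x0 δ0 : ℝ, 0 < x0 ∧ 0 < δ0 ∧ ∀ δ : ℝ, 0 < δ → δ ≤ δ0 →
      ∀ q : ℝ, 0 < q → x0 ≤ |th q| * δ ^ (-(7/8) : ℝ) → ∃ B : Set (ℕ → St),
        fkp q (R.dm δ) (fun F => path (R.dm δ) F ∈ B) ≤ ε ∧
        1 - ε ≤ fkp 1 (R.dm δ) (fun F => path (R.dm δ) F ∈ B)) := by
  obtain ⟨-, ⟨C, hC, hU⟩, -⟩ := inputs
  obtain ⟨C', hC', hlen⟩ := len_moment hC hU
  have ht := many_steps R
  obtain ⟨δ1, hδ1, hok⟩ := ok_small R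
  refine ⟨?_, fun ε hε => fk_sing R ht hε⟩
  obtain ⟨c, C, δ0, hc, hC, hδ0, h⟩ := fk_window hC' hlen R ht
  refine ⟨c, C, min δ0 δ1, hc, hC, lt_min hδ0 hδ1, fun δ hδ hδ' => ?_⟩
  obtain ⟨h1, h2⟩ := h δ hδ (hδ'.trans (min_le_left _ _))
  exact ⟨h2, fun q hq => fk_curve (hok δ hδ (hδ'.trans (min_le_right _ _))) (h2 q hq).1, h1⟩

end Pool.Agent.Results.MP_b3e76a_pr.InterfaceNearOne
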